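import Pool.Agent.Q237.LR.Stm

/-! Project LR of helper237, job COM: the probability bound. -/

set_option autoImplicit false

namespace Pool.Agent.Q96.LR

open MeasureTheory ProbabilityTheory H10PL
open Pool.Agent.Q237.LR

theorem com : S_ANT → S_PRB → S_COM := by
  classical
  intro hA hP m hm
  obtain ⟨C, hC, H⟩ := hA m hm
  refine ⟨C, hC, ?_⟩
  intro d Λ a c T ε hanti hc hT hε hrow htot
  obtain ⟨Φ, hΦ0, hΦ, hsum⟩ := H Λ (fun y w => a y w) c T (fun y w => hanti y w) hc hT
    (fun y => by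
      have h1 := hrow y y.2
      rw [← Finset.sum_coe_sort] at h1
      exact h1)
    (by
      have h1 := htot
      rw [← Finset.sum_coe_sort] at h1
      refine le_trans (le_of_eq ?_) h1
      refine Finset.sum_congr rfl fun y _ => ?_
      exact Finset.sum_coe_sort Λ (fun w => a y w ^ 2))
  set K : ℝ := C * (c ^ (m - 1) * T) ^ (1 / (2 * m : ℝ)) with hK
  set n : ℕ := Fintype.card (Sym2 Λ) with hn
  set P : Finset (Sym2 Λ → Bool) := Finset.univ.filter fun e => ε < Φ e with hPdef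
  have hsub : {s : Sym2 (Fin d → ℤ) → Bool | ¬ BdOn a ε Λ s} ⊆
      {s | (fun e : Sym2 Λ => s (e.map Subtype.val)) ∈ P} := by
    intro s hs
    by_contra hcon
    apply hs
    have h1 : Φ (fun e : Sym2 Λ => s (e.map Subtype.val)) ≤ ε := by
      by_contra h2
      apply hcon
      show (fun e : Sym2 Λ => s (e.map Subtype.val)) ∈ P
      rw [hPdef, Finset.mem_filter]
      exact ⟨Finset.mem_univ _, not_le.1 h2⟩
    intro u v
    have h2 := hΦ (fun e : Sym2 Λ => s (e.map Subtype.val)) (fun y => u y) (fun y => v y)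
    have h3 : ∑ y ∈ Λ, ∑ w ∈ Λ, a y w * sg (s s(y, w)) * (u y * v w) =
        ∑ y : Λ, ∑ w : Λ, a y w * sg (s (Sym2.map Subtype.val s(y, w))) * (u y * v w) := by
      rw [← Finset.sum_coe_sort]
      refine Finset.sum_congr rfl fun y _ => ?_
      rw [← Finset.sum_coe_sort]
      rfl
    have h4 : ∑ y ∈ Λ, u y ^ 2 + ∑ y ∈ Λ, v y ^ 2 = ∑ y : Λ, u y ^ 2 + ∑ y : Λ, v y ^ 2 := by
      rw [← Finset.sum_coe_sort Λ (fun y => u y ^ 2), ← Finset.sum_coe_sort Λ (fun y => v y ^ 2)]
    rw [h3, h4]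
    refine h2.trans (mul_le_mul_of_nonneg_right h1 ?_)
    positivity
  refine (measure_mono hsub).trans ?_
  rw [hP d Λ P]
  apply ENNReal.ofReal_le_ofReal
  have h5 : (P.card : ℝ) * ε ≤ 2 ^ n * K := by
    refine le_trans ?_ hsum
    calc (P.card : ℝ) * ε = ∑ e ∈ P, ε := by rw [Finset.sum_const, nsmul_eq_mul]
      _ ≤ ∑ e ∈ P, Φ e := Finset.sum_le_sum fun e he => by
          rw [hPdef, Finset.mem_filter] at he
          exact he.2.le
      _ ≤ ∑ e, Φ e := Finset.sum_le_univ_sum_of_nonneg hΦ0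
  rw [div_le_div_iff₀ (by positivity) hε]
  linarith

end Pool.Agent.Q96.LR
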